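import Mathlib

/-! Combinatorial lemmas for two scales of differences, and for graphs with few lower neighbours. -/

set_option autoImplicit false

namespace Pool.Agent.J4H70.Cyc

open Finset

/-- A subset of `{0, ..., 2 k}` without two elements whose difference is `k` or `k + 1` has at most `k` elements. -/
theorem cyc (k : ℕ) (hk : 1 ≤ k) (U : Finset ℕ) (hU : ∀ x ∈ U, x ≤ 2 * k)
    (h : ∀ x ∈ U, ∀ y ∈ U, y ≠ x + k ∧ y ≠ x + (k + 1)) : U.card ≤ k := by
  have h1 : (U.erase 0).card ≤ k := by
    have : (U.erase 0).card ≤ (Icc 1 k).card := by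
      apply card_le_card_of_injOn (fun i => if i ≤ k then i else i - k)
      · intro i hi
        have hi' := mem_erase.1 (mem_coe.1 hi)
        have := hU i hi'.2
        simp only [coe_Icc, Set.mem_Icc]
        split_ifs <;> omega
      · intro i hi j hj hij
        have hi' := mem_erase.1 (mem_coe.1 hi)
        have hj' := mem_erase.1 (mem_coe.1 hj)
        have a1 := h i hi'.2 j hj'.2
        have a2 := h j hj'.2 i hi'.2
        simp only at hij
        split_ifs at hij <;> omega
    simpa using this
  have h2 : (U.erase k).card ≤ k := by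
    have : (U.erase k).card ≤ (range k).card := by
      apply card_le_card_of_injOn (fun i => if i < k then i else i - (k + 1))
      · intro i hi
        have hi' := mem_erase.1 (mem_coe.1 hi)
        have := hU i hi'.2
        simp only [coe_range, Set.mem_Iio]
        split_ifs <;> omega
      · intro i hi j hj hij
        have hi' := mem_erase.1 (mem_coe.1 hi)
        have hj' := mem_erase.1 (mem_coe.1 hj)
        have a1 := h i hi'.2 j hj'.2
        have a2 := h j hj'.2 i hi'.2
        simp only at hij
        split_ifs at hij <;> omega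
    simpa using this
  by_contra hcon
  push Not at hcon
  have h0 : 0 ∈ U := by
    by_contra h0
    rw [erase_eq_of_notMem h0] at h1
    omega
  have hkU : k ∈ U := by
    by_contra h0
    rw [erase_eq_of_notMem h0] at h2
    omega
  have := (h 0 h0 k hkU).1
  omega

/-- Two scales: a subset of `{0, ..., (2 k + 1) ^ 2 t - 1}` with more than `k ^ 2 t` elements contains two elements whose
difference is `k`, or `k + 1`, or close to the interval between `(2 k + 1) k t` and `(2 k + 1) (k + 1) t`. -/
theorem two_scale (k t : ℕ) (hk : 1 ≤ k) (ht : 1 ≤ t) (S : Finset ℕ)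
    (hS : ∀ x ∈ S, x < (2 * k + 1) * ((2 * k + 1) * t)) (hcard : k * k * t + 1 ≤ S.card) :
    ∃ x ∈ S, ∃ y ∈ S, x < y ∧ ((k ≤ y - x ∧ y - x ≤ k + 1) ∨
      ((2 * k + 1) * (k * t) ≤ (y - x) + 2 * k ∧ y - x ≤ (2 * k + 1) * ((k + 1) * t) + 2 * k)) := by
  classical
  by_contra hcon
  push Not at hcon
  -- the blocks
  have hblk : ∀ w : ℕ, (S.filter (fun z => z / (2 * k + 1) = w)).card ≤ k := by
    intro w
    have : (S.filter (fun z => z / (2 * k + 1) = w)).card =
        ((S.filter (fun z => z / (2 * k + 1) = w)).image (fun z => z % (2 * k + 1))).card := by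
      rw [card_image_of_injOn]
      intro z hz z' hz' h
      have hz1 := (mem_filter.1 (mem_coe.1 hz)).2
      have hz2 := (mem_filter.1 (mem_coe.1 hz')).2
      have e1 := Nat.div_add_mod z (2 * k + 1)
      have e2 := Nat.div_add_mod z' (2 * k + 1)
      simp only at h
      rw [← e1, ← e2, hz1, hz2, h]
    rw [this]
    apply cyc k hk
    · intro x hx
      obtain ⟨z, hz, rfl⟩ := mem_image.1 hx
      have := Nat.mod_lt z (show 0 < 2 * k + 1 by omega)
      omega
    · intro x hx y hy
      obtain ⟨z, hz, rfl⟩ := mem_image.1 hx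
      obtain ⟨z', hz', rfl⟩ := mem_image.1 hy
      obtain ⟨hz1, hz2⟩ := mem_filter.1 hz
      obtain ⟨hz3, hz4⟩ := mem_filter.1 hz'
      have e1 := Nat.div_add_mod z (2 * k + 1)
      have e2 := Nat.div_add_mod z' (2 * k + 1)
      rw [hz2] at e1
      rw [hz4] at e2
      constructor
      · intro h
        have hd : z' = z + k := by omega
        have := (hcon z hz1 z' hz3 (by omega)).1 (by omega)
        omega
      · intro h
        have hd : z' = z + (k + 1) := by omega
        have := (hcon z hz1 z' hz3 (by omega)).1 (by omega)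
        omega
  -- the nonempty blocks
  obtain ⟨W, hW⟩ : ∃ W : Finset ℕ, W = S.image (fun z => z / (2 * k + 1)) := ⟨_, rfl⟩
  have hWlt : ∀ w ∈ W, w < (2 * k + 1) * t := by
    intro w hw
    rw [hW] at hw
    obtain ⟨z, hz, rfl⟩ := mem_image.1 hw
    rw [Nat.div_lt_iff_lt_mul (by omega)]
    have := hS z hz
    linarith [Nat.mul_comm ((2 * k + 1) * t) (2 * k + 1)]
  have hrow : ∀ x : ℕ, (W.filter (fun w => w % t = x)).card ≤ k := by
    intro x
    have : (W.filter (fun w => w % t = x)).card =
        ((W.filter (fun w => w % t = x)).image (fun w => w / t)).card := by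
      rw [card_image_of_injOn]
      intro z hz z' hz' h
      have hz1 := (mem_filter.1 (mem_coe.1 hz)).2
      have hz2 := (mem_filter.1 (mem_coe.1 hz')).2
      have e1 := Nat.div_add_mod z t
      have e2 := Nat.div_add_mod z' t
      simp only at h
      rw [← e1, ← e2, hz1, hz2, h]
    rw [this]
    apply cyc k hk
    · intro i hi
      obtain ⟨w, hw, rfl⟩ := mem_image.1 hi
      have h1 := hWlt w (mem_filter.1 hw).1
      have : w / t < 2 * k + 1 := by
        rw [Nat.div_lt_iff_lt_mul (by omega)]
        exact h1
      omega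
    · intro i hi j hj
      obtain ⟨w, hw, rfl⟩ := mem_image.1 hi
      obtain ⟨w', hw', rfl⟩ := mem_image.1 hj
      obtain ⟨hw1, hw2⟩ := mem_filter.1 hw
      obtain ⟨hw3, hw4⟩ := mem_filter.1 hw'
      rw [hW] at hw1 hw3
      obtain ⟨z, hz, hzw⟩ := mem_image.1 hw1
      obtain ⟨z', hz', hzw'⟩ := mem_image.1 hw3
      have e1 := Nat.div_add_mod z (2 * k + 1)
      have e2 := Nat.div_add_mod z' (2 * k + 1)
      have e3 := Nat.mod_lt z (show 0 < 2 * k + 1 by omega)
      have e4 := Nat.mod_lt z' (show 0 < 2 * k + 1 by omega)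
      have f1 := Nat.div_add_mod w t
      have f2 := Nat.div_add_mod w' t
      rw [hzw] at e1
      rw [hzw'] at e2
      constructor
      · intro h
        have g1 : w' = w + k * t := by
          rw [← f1, ← f2, h, hw2, hw4]
          ring
        have g2 : (2 * k + 1) * w' = (2 * k + 1) * w + (2 * k + 1) * (k * t) := by
          rw [g1]; ring
        have g3 : (2 * k + 1) * 1 ≤ (2 * k + 1) * (k * t) :=
          Nat.mul_le_mul_left _ (Nat.mul_pos (by omega) (by omega))
        have g4 : (2 * k + 1) * (k * t) ≤ (2 * k + 1) * ((k + 1) * t) :=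
          Nat.mul_le_mul_left _ (Nat.mul_le_mul_right _ (by omega))
        have := (hcon z hz z' hz' (by omega)).2 (by omega)
        omega
      · intro h
        have g1 : w' = w + (k + 1) * t := by
          rw [← f1, ← f2, h, hw2, hw4]
          ring
        have g2 : (2 * k + 1) * w' = (2 * k + 1) * w + (2 * k + 1) * ((k + 1) * t) := by
          rw [g1]; ring
        have g3 : (2 * k + 1) * 1 ≤ (2 * k + 1) * (k * t) :=
          Nat.mul_le_mul_left _ (Nat.mul_pos (by omega) (by omega))
        have g4 : (2 * k + 1) * (k * t) ≤ (2 * k + 1) * ((k + 1) * t) :=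
          Nat.mul_le_mul_left _ (Nat.mul_le_mul_right _ (by omega))
        have := (hcon z hz z' hz' (by omega)).2 (by omega)
        omega
  have hWc : W.card ≤ k * t := by
    have h1 : W.card = ∑ x ∈ range t, (W.filter (fun w => w % t = x)).card :=
      card_eq_sum_card_fiberwise (f := fun w => w % t) (t := range t) (fun w _ => by
        rw [mem_coe, mem_range]
        exact Nat.mod_lt _ (by omega))
    rw [h1]
    calc ∑ x ∈ range t, (W.filter (fun w => w % t = x)).card ≤ ∑ x ∈ range t, k :=
          sum_le_sum fun x _ => hrow x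
      _ = k * t := by rw [sum_const, card_range, smul_eq_mul, mul_comm]
  have hSc : S.card ≤ k * (k * t) := by
    have h1 : S.card = ∑ w ∈ W, (S.filter (fun z => z / (2 * k + 1) = w)).card :=
      card_eq_sum_card_fiberwise (f := fun z => z / (2 * k + 1)) (t := W) (fun z hz => by
        rw [hW]
        exact mem_coe.2 (mem_image_of_mem _ hz))
    rw [h1]
    calc ∑ w ∈ W, (S.filter (fun z => z / (2 * k + 1) = w)).card ≤ ∑ w ∈ W, k :=
          sum_le_sum fun w _ => hblk w
      _ = k * W.card := by rw [sum_const, smul_eq_mul, mul_comm]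
      _ ≤ k * (k * t) := Nat.mul_le_mul_left _ hWc
  rw [← mul_assoc] at hSc
  omega

/-- A finite set in which every element is related to fewer than `D` smaller elements contains large independent sets. -/
theorem indep (D : ℕ) (hD : 1 ≤ D) (r : ℕ → ℕ → Prop) [DecidableRel r] (m : ℕ) : ∀ U : Finset ℕ,
    (∀ j ∈ U, (U.filter (fun i => i < j ∧ r i j)).card + 1 ≤ D) → D * m ≤ U.card →
    ∃ E ⊆ U, E.card = m ∧ ∀ i ∈ E, ∀ j ∈ E, i < j → ¬ r i j := by
  induction m with
  | zero =>
    intro U _ _
    exact ⟨∅, empty_subset _, card_empty, by simp⟩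
  | succ m ih =>
    intro U hU hc
    have hne : U.Nonempty := by
      rw [← card_pos]
      have : 0 < D * (m + 1) := Nat.mul_pos hD (by omega)
      omega
    obtain ⟨j, hj⟩ : ∃ j, j = U.max' hne := ⟨_, rfl⟩
    have hjU : j ∈ U := by rw [hj]; exact U.max'_mem hne
    have hjm : ∀ i ∈ U, i ≤ j := fun i hi => by rw [hj]; exact U.le_max' i hi
    obtain ⟨V, hV⟩ : ∃ V : Finset ℕ, V = (U.erase j).filter (fun i => ¬ (i < j ∧ r i j)) := ⟨_, rfl⟩
    have hVU : V ⊆ U := by
      rw [hV]
      exact (filter_subset _ _).trans (erase_subset _ _)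
    have hVc : D * m ≤ V.card := by
      have h1 : (U.erase j).card = ((U.erase j).filter (fun i => i < j ∧ r i j)).card + V.card := by
        rw [hV]
        exact (card_filter_add_card_filter_not _).symm
      have h2 : ((U.erase j).filter (fun i => i < j ∧ r i j)).card ≤ (U.filter (fun i => i < j ∧ r i j)).card :=
        card_le_card (filter_subset_filter _ (erase_subset _ _))
      have h3 := hU j hjU
      have h4 : (U.erase j).card = U.card - 1 := card_erase_of_mem hjU
      have h5 : 0 < U.card := card_pos.2 hne
      have h6 : D * (m + 1) = D * m + D := by ring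
      omega
    obtain ⟨E, hE, hE1, hE2⟩ := ih V (fun i hi => by
      have h1 := hU i (hVU hi)
      have h2 : (V.filter (fun l => l < i ∧ r l i)).card ≤ (U.filter (fun l => l < i ∧ r l i)).card :=
        card_le_card (filter_subset_filter _ hVU)
      omega) hVc
    have hjE : j ∉ E := fun h => by
      have := hE h
      rw [hV, mem_filter, mem_erase] at this
      exact this.1.1 rfl
    refine ⟨insert j E, ?_, ?_, ?_⟩
    · intro i hi
      rcases mem_insert.1 hi with rfl | hi
      · exact hjU
      · exact hVU (hE hi)
    · rw [card_insert_of_notMem hjE, hE1]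
    · intro i hi l hl hil
      rcases mem_insert.1 hl with hl1 | hl1
      · rcases mem_insert.1 hi with hi1 | hi1
        · omega
        · have := hE hi1
          rw [hV, mem_filter] at this
          rw [hl1] at hil ⊢
          exact fun h => this.2 ⟨hil, h⟩
      · rcases mem_insert.1 hi with hi1 | hi1
        · have := hjm l (hVU (hE hl1))
          omega
        · exact hE2 i hi1 l hl1 hil

end Pool.Agent.J4H70.Cyc
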