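import Pool.Agent.T6.H57.LamR

/-!
# Goldbach with a prime on every scale and a rough second summand

The sieve of `Pool.Agent.T6.H57` without weights: all scales, all roughness exponents.
-/

set_option autoImplicit false

namespace Pool.Agent.J4H70.Rough

open Finset Filter
open Pool.Agent.W23.DC
open Pool.Agent.Y882
open Pool.Agent.Y882.PX
open Pool.Agent.Y882.KW
open Pool.Agent.Y882.SI
open Pool.Agent.Y882.GW
open Pool.Agent.Y882.GX
open Pool.Agent.T6.H57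

open Classical in
/-- **Every scale.** For `2 ζ < τ ≤ 4 ζ` and `θ / 2 ≤ τ < θ ≤ 1`. -/
theorem everyScaleR (θ τ ζ ε : ℝ) (hθ0 : 0 < θ) (hθ1 : θ ≤ 1) (hζ0 : 0 < ζ) (h2ζ : 2 * ζ < τ) (h4ζ : τ ≤ 4 * ζ)
    (hτ2 : θ / 2 ≤ τ) (hτθ : τ < θ) (hε : 0 < ε) :
    ∃ r : ℕ, ∃ δ C : ℝ, 0 < δ ∧ 0 < C ∧ ∀ X : ℕ, 1 ≤ X →
      (((Icc 1 X).filter (fun N : ℕ => Even N ∧ ∃ x : ℝ, (N : ℝ) ^ θ ≤ x ∧ x ≤ N / 2 ∧
        (inWindow r ζ x N : ℝ) < δ * sgs N * (x / Real.log N ^ 2))).card : ℝ) ≤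
      C * (X : ℝ) ^ (2 * τ - θ + ε) := by
  have hτ0 : 0 < τ := by linarith
  have hζ1 : ζ ≤ 1 := by linarith
  obtain ⟨r, hr⟩ := exists_nat_ge (1 / (1 : ℝ) + 2 / ζ)
  set κ : ℝ := min (ε / 2) ((θ - τ) / 2) with hκ
  have hκ0 : 0 < κ := lt_min (by linarith) (by linarith)
  have hκε : κ ≤ ε / 2 := min_le_left _ _
  have hκθ : κ ≤ (θ - τ) / 2 := min_le_right _ _
  have hlog : 0 < Real.log (τ / ζ - 1) / τ := by
    apply div_pos _ hτ0
    apply Real.log_pos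
    have : 2 < τ / ζ := by rw [lt_div_iff₀ hζ0]; linarith
    linarith
  obtain ⟨δ, hδ, Y0, H⟩ := blkSAll r (θ - κ) τ ζ ζ 1 2 (by linarith) (by linarith) hζ0
    h2ζ h4ζ (by linarith) (by linarith) le_rfl (by linarith) one_pos
    (by rw [intervalIntegral.integral_same]; exact hlog) (by norm_num) (by linarith) (ε / 2)
    (by linarith)
  have ev1 : ∀ᶠ Y : ℕ in atTop, (2 : ℝ) ≤ (Y : ℝ) ^ κ :=
    ((tendsto_rpow_atTop hκ0).comp tendsto_natCast_atTop_atTop).eventually_ge_atTop _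
  obtain ⟨Y1, hY1⟩ := eventually_atTop.1 ev1
  obtain ⟨C, hC, hcum⟩ := Pool.Agent.Y882.cum (fun N : ℕ => Even N ∧ ∃ x : ℝ, (N : ℝ) ^ θ ≤ x ∧
    x ≤ N / 2 ∧ (inWindow r ζ x N : ℝ) < δ / 2 * sgs N * (x / Real.log N ^ 2))
    (2 * τ - θ + ε) (by linarith)
    (max (max Y0 Y1) 3) (by
    intro Y hY
    have hY0 : Y0 ≤ Y := ((le_max_left _ _).trans (le_max_left _ _)).trans hY
    have e1 := hY1 Y (((le_max_right _ _).trans (le_max_left _ _)).trans hY)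
    have hY3 : 3 ≤ Y := (le_max_right _ _).trans hY
    have hYr : (3 : ℝ) ≤ Y := by exact_mod_cast hY3
    have hYp : (0 : ℝ) < Y := by linarith
    have hlY : 0 < Real.log Y := Real.log_pos (by linarith)
    refine le_trans ?_ ((H Y hY0).trans (Real.rpow_le_rpow_of_exponent_le (by linarith)
      (by linarith)))
    apply Nat.cast_le.2
    apply card_le_card
    intro n hn
    rw [mem_filter, mem_Ioc] at hn ⊢
    obtain ⟨⟨h2, h3⟩, h4, x, hx1, hx2, h5⟩ := hn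
    refine ⟨⟨h2, h3⟩, h4, ?_⟩
    have h12 : (n : ℝ) ≤ 2 * Y := by exact_mod_cast h3
    have h13 : (Y : ℝ) < n := by exact_mod_cast h2
    have hn0 : (0 : ℝ) < n := by linarith
    have h3θ : (Y : ℝ) ^ θ ≤ (n : ℝ) ^ θ :=
      Real.rpow_le_rpow (by positivity) h13.le (by linarith)
    have hYθ1 : 1 ≤ (Y : ℝ) ^ θ := Real.one_le_rpow (by linarith) hθ0.le
    have hx1' : 1 ≤ x := by linarith
    have hx0 : 0 < x := by linarith
    -- the power of two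
    set j := Nat.log 2 ⌊x⌋₊ with hj
    have hfl : ⌊x⌋₊ ≠ 0 := by
      have : 1 ≤ ⌊x⌋₊ := Nat.le_floor (by push_cast; exact hx1')
      omega
    have hj1 : (2 : ℝ) ^ j ≤ x := by
      have h6 : 2 ^ j ≤ ⌊x⌋₊ := Nat.pow_log_le_self 2 hfl
      calc (2 : ℝ) ^ j = ((2 ^ j : ℕ) : ℝ) := by push_cast; rfl
        _ ≤ (⌊x⌋₊ : ℝ) := by exact_mod_cast h6
        _ ≤ x := Nat.floor_le hx0.le
    have hj2 : x < 2 * (2 : ℝ) ^ j := by
      have h6 : ⌊x⌋₊ < 2 ^ (j + 1) := Nat.lt_pow_succ_log_self (by norm_num) _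
      have h7 : x < ((2 ^ (j + 1) : ℕ) : ℝ) := (Nat.floor_lt hx0.le).1 h6
      rw [pow_succ] at h7
      push_cast at h7
      linarith
    have hjY : (2 : ℝ) ^ j ≤ Y := by linarith
    refine ⟨j, ?_, hjY, ?_⟩
    · have h8 : (Y : ℝ) ^ θ = (Y : ℝ) ^ κ * (Y : ℝ) ^ (θ - κ) := by
        rw [← Real.rpow_add hYp]
        congr 1
        ring
      have h9 : 2 * (Y : ℝ) ^ (θ - κ) ≤ (Y : ℝ) ^ θ := by
        rw [h8]
        exact mul_le_mul_of_nonneg_right e1 (by positivity)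
      linarith
    · have h6 := gp_le_inWindow r ζ x ((2 : ℝ) ^ j) hζ0.le hζ1 Y n (by omega) h2 h3 hj1 hj2
        hjY
      have h7 : ((gp r ((2 : ℝ) ^ j) ((Y : ℝ) ^ ζ) n).card : ℝ) ≤
          inWindow r ζ x n := by
        exact_mod_cast h6
      refine h7.trans_lt (h5.trans_le ?_)
      have hs1 : 1 ≤ sgs n := one_le_sgs n
      have h14 : Real.log Y ≤ Real.log n := Real.log_le_log (by linarith) h13.le
      have h15 : x / Real.log n ^ 2 ≤ 2 * (2 : ℝ) ^ j / Real.log Y ^ 2 := by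
        apply div_le_div₀ (by positivity) hj2.le (by positivity)
        exact pow_le_pow_left₀ hlY.le h14 2
      calc δ / 2 * sgs n * (x / Real.log n ^ 2) ≤
          δ / 2 * sgs n * (2 * (2 : ℝ) ^ j / Real.log Y ^ 2) :=
            mul_le_mul_of_nonneg_left h15 (by positivity)
        _ = δ * (2 : ℝ) ^ j / Real.log Y ^ 2 * sgs n := by ring)
  exact ⟨r, δ / 2, C, by positivity, hC, fun X hX => hcum X hX⟩

end Pool.Agent.J4H70.Rough
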